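import Pool.Agent.N601.TE.Main

set_option autoImplicit false

/-!
The conditions are necessary.
-/

namespace Pool.Agent.N601.TE

open Complex Set MeasureTheory Filter Topology Pool.Agent.W780.PG Pool.Agent.W780.BB
open Pool.Agent.TH578.BE

open scoped Real ComplexConjugate ENNReal

variable {n d : ℕ}

theorem vol_prod (S : Set (ℂ × ℝ)) (B : Set (Tor d)) :
    vol d (S ×ˢ B) = volume S * haar d B := by
  unfold vol
  rw [Measure.prod_prod]

/-- pulling back a set of states of the billiard -/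
theorem irr_of_trivial {p : Fin (n + 3) → ℂ} (hp : IsConvexPolygon p) {v : Fin d → ℝ}
    {g : Fin (n + 3) → Tor d}
    (h : ∀ A : Set ((ℂ × ℝ) × Tor d), MeasurableSet A → IsInvariantExt p v g A → FinitePer p A →
      IsTrivialExt p A) : ∃ i, Irrational (ang p i / π) := by
  refine (finished hp).2.2 fun A hA hI hF => ?_
  have h1 : IsTrivialExt p (A ×ˢ (univ : Set (Tor d))) := by
    refine h _ (hA.prod MeasurableSet.univ) ⟨?_, ?_, ?_⟩ ?_
    · intro z θ u
      simpa using hI.periodic z θ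
    · intro z θ s u h1 h2
      simpa using hI.free z θ s h1 h2
    · intro i y hy θ s r u hs hr h1 h2
      simpa using hI.reflect i y hy θ s r hs hr h1 h2
    · obtain ⟨C, hC⟩ := hF
      refine ⟨C, fun t h1 h2 => ?_⟩
      have e : turned p (A ×ˢ (univ : Set (Tor d))) t =
          {x : ℂ × ℝ | x ∈ phase p ∧ ¬ (x ∈ A ↔ (x.1, x.2 + t) ∈ A)} ×ˢ (univ : Set (Tor d)) := by
        ext x
        simp [turned]
      rw [e, vol_prod, measure_univ, mul_one]
      exact hC t h1 h2
  rcases h1 with h1 | h1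
  · left
    have e : {x : (ℂ × ℝ) × Tor d | x.1 ∈ phase p ∧ x ∈ A ×ˢ (univ : Set (Tor d))} =
        (phase p ∩ A) ×ˢ (univ : Set (Tor d)) := by
      ext x
      simp
    rwa [e, vol_prod, measure_univ, mul_one] at h1
  · right
    have e : {x : (ℂ × ℝ) × Tor d | x.1 ∈ phase p ∧ x ∉ A ×ˢ (univ : Set (Tor d))} =
        (phase p \ A) ×ˢ (univ : Set (Tor d)) := by
      ext x
      simp
    rwa [e, vol_prod, measure_univ, mul_one] at h1

theorem ch_drift_one {v : Fin d → ℝ} {k : Fin d → ℤ} (h : ∑ j, (k j : ℝ) * v j = 0) (s : ℝ) :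
    ch k (drift v s) = 1 := by
  unfold drift
  rw [ch_coe]
  have : ∑ j, (k j : ℝ) * (s * v j) = s * ∑ j, (k j : ℝ) * v j := by
    rw [Finset.mul_sum]
    exact Finset.sum_congr rfl fun j _ => by ring
  rw [this, h]
  simp

/-- a character which is constant along the orbits gives an invariant set -/
theorem not_trivial_of_kills {p : Fin (n + 3) → ℂ} (hp : IsConvexPolygon p) {v : Fin d → ℝ}
    {g : Fin (n + 3) → Tor d} {k : Fin d → ℤ} (hk0 : k ≠ 0) (hk : Kills v g k) :
    ∃ A : Set ((ℂ × ℝ) × Tor d), MeasurableSet A ∧ IsInvariantExt p v g A ∧ FinitePer p A ∧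
      ¬ IsTrivialExt p A := by
  obtain ⟨hph, hpos⟩ := phase_facts hp
  obtain ⟨U, hU⟩ : ∃ U : Set (Tor d), U = {u | 0 < (ch k u).re} := ⟨_, rfl⟩
  have hop : IsOpen U := by
    rw [hU]
    exact isOpen_lt continuous_const (continuous_re.comp (ch_cont k))
  have hinv : ∀ (u w : Tor d), ch k w = 1 → (u ∈ U ↔ u + w ∈ U) := by
    intro u w hw
    rw [hU]
    simp only [mem_ofPred_eq]
    rw [ch_add, hw, mul_one]
  have hg : ∀ i, ch k (g i) = 1 := fun i => (ch_eq_one k (g i)).2 (hk.2 i)
  have hne : U.Nonempty := by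
    refine ⟨0, ?_⟩
    rw [hU]
    have : ch k (0 : Tor d) = 1 := (ch_eq_one _ _).2 (by simp)
    simp only [mem_ofPred_eq]
    rw [this]
    simp
  obtain ⟨W, hW⟩ : ∃ W : Set (Tor d), W = {u | (ch k u).re < 0} := ⟨_, rfl⟩
  have hWo : IsOpen W := by
    rw [hW]
    exact isOpen_lt (continuous_re.comp (ch_cont k)) continuous_const
  have hWne : W.Nonempty := by
    obtain ⟨j, hj⟩ : ∃ j, k j ≠ 0 := by
      by_contra hcon
      push Not at hcon
      exact hk0 (funext hcon)
    refine ⟨fun i => ((Pi.single j (1 / (2 * (k j : ℝ))) : Fin d → ℝ) i : UnitAddCircle), ?_⟩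
    rw [hW]
    simp only [mem_ofPred_eq]
    rw [ch_coe]
    have : ∑ i, (k i : ℝ) * (Pi.single j (1 / (2 * (k j : ℝ))) : Fin d → ℝ) i = 1 / 2 := by
      rw [Finset.sum_eq_single j]
      · rw [Pi.single_eq_same]
        have : (k j : ℝ) ≠ 0 := by exact_mod_cast hj
        field_simp
      · intro i _ hi
        rw [Pi.single_eq_of_ne hi, mul_zero]
      · intro h
        exact absurd (Finset.mem_univ j) h
    rw [this]
    have e : (((2 * π * (1 / 2) : ℝ) : ℂ) * I) = π * I := by
      push_cast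
      ring
    rw [e, exp_pi_mul_I]
    norm_num
  refine ⟨(univ : Set (ℂ × ℝ)) ×ˢ U, MeasurableSet.univ.prod hop.measurableSet, ⟨?_, ?_, ?_⟩,
    ⟨0, fun t _ _ => ?_⟩, ?_⟩
  · intro z θ u
    simp
  · intro z θ s u _ _
    simpa using hinv u _ (ch_drift_one hk.1 s)
  · intro i y _ θ s r u _ _ _ _
    have h1 : ch k (drift v (s + r) + g i) = 1 := by rw [ch_add, ch_drift_one hk.1, hg, one_mul]
    simpa using hinv u _ h1
  · have e : turned p ((univ : Set (ℂ × ℝ)) ×ˢ U) t = ∅ := by
      ext x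
      simp [turned]
    rw [e, measure_empty]
    exact zero_le
  · rintro (h | h)
    · have e : {x : (ℂ × ℝ) × Tor d | x.1 ∈ phase p ∧ x ∈ (univ : Set (ℂ × ℝ)) ×ˢ U} =
          phase p ×ˢ U := by
        ext x
        simp
      rw [e, vol_prod] at h
      rcases mul_eq_zero.1 h with h1 | h1
      · exact hpos.ne' h1
      · exact (hop.measure_pos (haar d) hne).ne' h1
    · have h2 : vol d (phase p ×ˢ W) = 0 := by
        refine measure_mono_null ?_ h
        rintro x ⟨a1, a2⟩
        refine ⟨a1, fun a3 => ?_⟩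
        have a4 := a3.2
        rw [hU] at a4
        rw [hW] at a2
        simp only [mem_ofPred_eq] at a2 a4
        linarith
      rw [vol_prod] at h2
      rcases mul_eq_zero.1 h2 with h1 | h1
      · exact hpos.ne' h1
      · exact (hWo.measure_pos (haar d) hWne).ne' h1

/-- The criterion. -/
theorem criterion {p : Fin (n + 3) → ℂ} (hp : IsConvexPolygon p) (v : Fin d → ℝ)
    (g : Fin (n + 3) → Tor d) :
    (∀ A : Set ((ℂ × ℝ) × Tor d), MeasurableSet A → IsInvariantExt p v g A → InClass p g A →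
      IsTrivialExt p A) ↔
    (∃ i, Irrational (ang p i / π)) ∧ ∀ k : Fin d → ℤ, k ≠ 0 → ¬ Kills v g k := by
  constructor
  · intro h
    refine ⟨irr_of_trivial hp fun A h1 h2 h3 => h A h1 h2 (Or.inl h3), fun k hk0 hk => ?_⟩
    obtain ⟨A, h1, h2, h3, h4⟩ := not_trivial_of_kills hp hk0 hk
    exact h4 (h A h1 h2 (Or.inl h3))
  · rintro ⟨h1, h2⟩ A hA hI hC
    exact trivial_ext hp h1 h2 hA hI hC

end Pool.Agent.N601.TE
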