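import Pool.Agent.N601.TE.Conv

set_option autoImplicit false

/-!
The structure theorem with translations of the torus.
-/

namespace Pool.Agent.N601.TE

open Complex Set MeasureTheory Filter Topology Pool.Agent.W780.PG Pool.Agent.W780.BB
open Pool.Agent.TH578.BE

open scoped Real ComplexConjugate ENNReal

variable {n d : ℕ}

theorem meas_shift {B : Set (Tor d)} (hB : MeasurableSet B) (w : Tor d) :
    MeasurableSet {u : Tor d | u + w ∈ B} := (measurable_add_const w) hB

/-- a set is invariant under a translation if its spectrum allows it -/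
theorem inv_of_fc {B : Set (Tor d)} (hB : MeasurableSet B) (w : Tor d)
    (h : ∀ k, fc B k ≠ 0 → ch k w = 1) : haar d {u | ¬ (u ∈ B ↔ u + w ∈ B)} = 0 := by
  refine eq_of_fc hB (meas_shift hB w) fun k => ?_
  have h1 : fc B k = ch (-k) w * fc {u : Tor d | u + w ∈ B} k := by
    unfold fc
    rw [← integral_add_right_eq_self (fun u => ch (-k) u * B.indicator (fun _ => (1 : ℂ)) u) w,
      ← integral_const_mul]
    apply integral_congr_ae
    refine Eventually.of_forall fun u => ?_
    simp only
    have e : B.indicator (fun _ => (1 : ℂ)) (u + w) =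
        ({u : Tor d | u + w ∈ B}).indicator (fun _ => (1 : ℂ)) u := by
      by_cases hu : u + w ∈ B
      · rw [indicator_of_mem hu, indicator_of_mem (show u ∈ {u : Tor d | u + w ∈ B} from hu)]
      · rw [indicator_of_notMem hu,
          indicator_of_notMem (show u ∉ {u : Tor d | u + w ∈ B} from hu)]
    rw [e, ch_add]
    ring
  by_cases h2 : fc B k = 0
  · rw [h2] at h1 ⊢
    have h3 : ch (-k) w ≠ 0 := by
      intro h4
      have := ch_norm (-k) w
      rw [h4, norm_zero] at this
      exact zero_ne_one this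
    rcases mul_eq_zero.1 h1.symm with h4 | h4
    · exact absurd h4 h3
    · exact h4.symm
  · have h3 : ch (-k) w = 1 := by rw [ch_neg, h k h2, map_one]
    rw [h3, one_mul] at h1
    exact h1

theorem structure_inv {p : Fin (n + 3) → ℂ} (hp : IsConvexPolygon p)
    (hirr : ∃ i, Irrational (ang p i / π)) {v : Fin d → ℝ}
    {g : Fin (n + 3) → Tor d} {A : Set ((ℂ × ℝ) × Tor d)} (hA : MeasurableSet A)
    (hI : IsInvariantExt p v g A) (hC : InClass p g A) :
    ∃ B : Set (Tor d), MeasurableSet B ∧
      vol d {x | x.1 ∈ phase p ∧ ¬ (x ∈ A ↔ x.2 ∈ B)} = 0 ∧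
      (∀ s : ℝ, haar d {u | ¬ (u ∈ B ↔ u + drift v s ∈ B)} = 0) ∧
      ∀ i, haar d {u | ¬ (u ∈ B ↔ u + g i ∈ B)} = 0 := by
  obtain ⟨B, hB, h1, h2⟩ := structure_ext hp hirr hA hI hC
  have h3 : ∀ k, fc B k ≠ 0 → Kills v g k := by
    intro k hk
    by_contra h
    exact hk (h2 k h)
  refine ⟨B, hB, h1, fun s => ?_, fun i => ?_⟩
  · exact inv_of_fc hB _ fun k hk => ch_drift_one (h3 k hk).1 s
  · exact inv_of_fc hB _ fun k hk => (ch_eq_one _ _).2 ((h3 k hk).2 i)

end Pool.Agent.N601.TE
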