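import Mathlib

set_option autoImplicit false

/-!
Fourier coefficients of sets in the torus.
-/

namespace Pool.Agent.N601.TE

open Complex Set MeasureTheory Filter Topology

open scoped Real ComplexConjugate ENNReal

/-- The torus `(ℝ / ℤ) ^ d`. -/
abbrev Tor (d : ℕ) : Type := UnitAddTorus (Fin d)

/-- The invariant probability measure of the torus. -/
noncomputable def haar (d : ℕ) : Measure (Tor d) := Measure.pi fun _ => AddCircle.haarAddCircle

instance (d : ℕ) : IsProbabilityMeasure (haar d) := by
  unfold haar; infer_instance

instance (d : ℕ) : (haar d).IsAddLeftInvariant := by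
  unfold haar; infer_instance

instance (d : ℕ) : (haar d).IsAddRightInvariant := by
  unfold haar; infer_instance

instance (d : ℕ) : (haar d).IsOpenPosMeasure := by
  unfold haar; infer_instance

/-- the character of the torus with the exponents `k` -/
noncomputable def ch {d : ℕ} (k : Fin d → ℤ) (u : Tor d) : ℂ := UnitAddTorus.mFourier k u

variable {d : ℕ}

theorem ch_def (k : Fin d → ℤ) (u : Tor d) : ch k u = ∏ j, fourier (k j) (u j) := rfl

theorem ch_cont (k : Fin d → ℤ) : Continuous (ch k) := (UnitAddTorus.mFourier k).continuous

theorem fourier_add_arg (n : ℤ) (x y : UnitAddCircle) :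
    fourier n (x + y) = fourier n x * (fourier n y : ℂ) := by
  simp only [fourier_apply, smul_add, AddCircle.toCircle_add, Circle.coe_mul]

theorem ch_add (k : Fin d → ℤ) (u w : Tor d) : ch k (u + w) = ch k u * ch k w := by
  simp only [ch_def, Pi.add_apply, fourier_add_arg, Finset.prod_mul_distrib]

theorem ch_norm (k : Fin d → ℤ) (u : Tor d) : ‖ch k u‖ = 1 := by
  rw [ch_def, norm_prod]
  exact Finset.prod_eq_one fun j _ => by simp only [fourier_apply, Circle.norm_coe]

theorem ch_neg (k : Fin d → ℤ) (u : Tor d) : ch (-k) u = conj (ch k u) :=
  UnitAddTorus.mFourier_neg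

/-- the value at a point given by real coordinates -/
theorem ch_coe (k : Fin d → ℤ) (w : Fin d → ℝ) :
    ch k (fun j => ((w j : ℝ) : UnitAddCircle)) = exp (((2 * π * ∑ j, k j * w j : ℝ) : ℂ) * I) := by
  rw [ch_def]
  simp only [fourier_coe_apply]
  rw [← exp_sum]
  congr 1
  push_cast
  rw [Finset.mul_sum, Finset.sum_mul]
  exact Finset.sum_congr rfl fun j _ => by ring

/-- a character is trivial at a point exactly if the combination of the coordinates is zero -/
theorem ch_eq_one (k : Fin d → ℤ) (u : Tor d) : ch k u = 1 ↔ ∑ j, k j • u j = 0 := by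
  have h : ch k u = ((AddCircle.toCircle (∑ j, k j • u j) : Circle) : ℂ) := by
    rw [ch_def]
    simp only [fourier_apply]
    have : ∀ s : Finset (Fin d), ∏ j ∈ s, ((AddCircle.toCircle (k j • u j) : Circle) : ℂ) =
        ((AddCircle.toCircle (∑ j ∈ s, k j • u j) : Circle) : ℂ) := by
      classical
      intro s
      induction s using Finset.induction_on with
      | empty => simp [AddCircle.toCircle_zero]
      | insert a s ha ih =>
        rw [Finset.prod_insert ha, Finset.sum_insert ha, ih, AddCircle.toCircle_add, Circle.coe_mul]
    exact this Finset.univ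
  rw [h]
  constructor
  · intro h1
    have h2 : AddCircle.toCircle (∑ j, k j • u j) = AddCircle.toCircle (0 : UnitAddCircle) := by
      apply Circle.ext
      rw [h1, AddCircle.toCircle_zero, Circle.coe_one]
    exact AddCircle.injective_toCircle one_ne_zero h2
  · intro h1
    rw [h1, AddCircle.toCircle_zero, Circle.coe_one]

section

/-- the normalisation of the measure used in Mathlib's theory of multiple Fourier series -/
noncomputable local instance : MeasureSpace UnitAddCircle := ⟨AddCircle.haarAddCircle⟩

local instance : Measure.IsAddHaarMeasure (volume : Measure UnitAddCircle) :=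
  inferInstanceAs (Measure.IsAddHaarMeasure AddCircle.haarAddCircle)

local instance : IsProbabilityMeasure (volume : Measure UnitAddCircle) :=
  inferInstanceAs (IsProbabilityMeasure AddCircle.haarAddCircle)

theorem haar_eq : haar d = (volume : Measure (UnitAddTorus (Fin d))) := rfl

/-- uniqueness of Fourier coefficients -/
theorem unique {F : Tor d → ℂ} (hF : Measurable F) {C : ℝ} (hb : ∀ u, ‖F u‖ ≤ C)
    (h : ∀ k : Fin d → ℤ, ∫ u, ch (-k) u * F u ∂(haar d) = 0) : F =ᵐ[haar d] 0 := by
  have hL : MemLp F 2 (volume : Measure (UnitAddTorus (Fin d))) := by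
    rw [← haar_eq]
    exact MemLp.of_bound hF.aestronglyMeasurable C (Eventually.of_forall hb)
  have h0 : hL.toLp F = 0 := by
    have h1 : UnitAddTorus.mFourierBasis.repr (hL.toLp F) = 0 := by
      ext k
      rw [UnitAddTorus.mFourierBasis_repr]
      have h2 : UnitAddTorus.mFourierCoeff (hL.toLp F : UnitAddTorus (Fin d) → ℂ) k =
          ∫ u, ch (-k) u * F u ∂(haar d) := by
        unfold UnitAddTorus.mFourierCoeff
        rw [haar_eq]
        apply integral_congr_ae
        filter_upwards [hL.coeFn_toLp] with u hu
        rw [hu, smul_eq_mul]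
        rfl
      rw [h2, h k]
      rfl
    exact (LinearIsometryEquiv.map_eq_zero_iff _).1 h1
  have h3 := hL.coeFn_toLp
  rw [h0] at h3
  have h4 := Lp.coeFn_zero ℂ 2 (volume : Measure (UnitAddTorus (Fin d)))
  rw [haar_eq]
  filter_upwards [h3, h4] with u h5 h6
  rw [← h5, h6]

end

/-- the Fourier coefficients of a set -/
noncomputable def fc (B : Set (Tor d)) (k : Fin d → ℤ) : ℂ :=
  ∫ u, ch (-k) u * B.indicator (fun _ => (1 : ℂ)) u ∂(haar d)

theorem integrable_fc {B : Set (Tor d)} (hB : MeasurableSet B) (k : Fin d → ℤ) :
    Integrable (fun u => ch (-k) u * B.indicator (fun _ => (1 : ℂ)) u) (haar d) := by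
  refine Integrable.of_bound (C := 1) ?_ (Eventually.of_forall fun u => ?_)
  · exact ((ch_cont (-k)).measurable.mul (measurable_const.indicator hB)).aestronglyMeasurable
  · rw [norm_mul, ch_norm, one_mul]
    by_cases hu : u ∈ B
    · rw [indicator_of_mem hu, norm_one]
    · rw [indicator_of_notMem hu, norm_zero]
      exact zero_le_one

theorem fc_eq_setIntegral {B : Set (Tor d)} (hB : MeasurableSet B) (k : Fin d → ℤ) :
    fc B k = ∫ u in B, ch (-k) u ∂(haar d) := by
  unfold fc
  rw [← integral_indicator hB]
  apply integral_congr_ae
  refine Eventually.of_forall fun u => ?_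
  by_cases hu : u ∈ B
  · simp [hu]
  · simp [hu]

/-- two sets with the same Fourier coefficients are equal almost everywhere -/
theorem eq_of_fc {B B' : Set (Tor d)} (hB : MeasurableSet B) (hB' : MeasurableSet B')
    (h : ∀ k, fc B k = fc B' k) : haar d {u | ¬ (u ∈ B ↔ u ∈ B')} = 0 := by
  have h1 : (fun u => B.indicator (fun _ => (1 : ℂ)) u - B'.indicator (fun _ => (1 : ℂ)) u)
      =ᵐ[haar d] 0 := by
    refine unique (C := 2) ((measurable_const.indicator hB).sub (measurable_const.indicator hB'))
      (fun u => ?_) fun k => ?_
    · refine (norm_sub_le _ _).trans ?_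
      have : ∀ D : Set (Tor d), ‖D.indicator (fun _ => (1 : ℂ)) u‖ ≤ 1 := by
        intro D
        by_cases hu : u ∈ D
        · rw [indicator_of_mem hu, norm_one]
        · rw [indicator_of_notMem hu, norm_zero]
          exact zero_le_one
      linarith [this B, this B']
    · have h2 := h k
      unfold fc at h2
      simp only [mul_sub]
      rw [integral_sub (integrable_fc hB k) (integrable_fc hB' k), h2, sub_self]
  rw [EventuallyEq, ae_iff] at h1
  refine measure_mono_null (fun u hu => ?_) h1
  intro h3
  apply hu
  by_cases a : u ∈ B <;> by_cases b : u ∈ B' <;> simp [a, b] at h3 ⊢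

/-- a set whose Fourier coefficients vanish except at zero is trivial -/
theorem trivial_of_fc {B : Set (Tor d)} (hB : MeasurableSet B) (h : ∀ k, k ≠ 0 → fc B k = 0) :
    haar d B = 0 ∨ haar d Bᶜ = 0 := by
  have h1 : (fun u => B.indicator (fun _ => (1 : ℂ)) u - fc B 0) =ᵐ[haar d] 0 := by
    refine unique (C := 1 + ‖fc B 0‖) ((measurable_const.indicator hB).sub measurable_const)
      (fun u => ?_) fun k => ?_
    · refine (norm_sub_le _ _).trans (add_le_add ?_ le_rfl)
      by_cases hu : u ∈ B
      · rw [indicator_of_mem hu, norm_one]
      · rw [indicator_of_notMem hu, norm_zero]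
        exact zero_le_one
    · have hi : Integrable (fun u => ch (-k) u * fc B 0) (haar d) := by
        refine Integrable.of_bound (C := ‖fc B 0‖) ?_ (Eventually.of_forall fun u => ?_)
        · exact ((ch_cont (-k)).measurable.mul measurable_const).aestronglyMeasurable
        · rw [norm_mul, ch_norm, one_mul]
      simp only [mul_sub]
      rw [integral_sub (integrable_fc hB k) hi, integral_mul_const]
      have hu : ∀ k : Fin d → ℤ, ∫ u, ch (-k) u ∂(haar d) = if k = 0 then 1 else 0 := by
        intro k
        split_ifs with hk
        · rw [hk, neg_zero]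
          have : ∀ u : Tor d, ch 0 u = 1 := by
            intro u
            unfold ch
            rw [UnitAddTorus.mFourier_zero]
            rfl
          simp only [this]
          rw [integral_const, probReal_univ, one_smul]
        · -- a nontrivial character has mean zero
          obtain ⟨j, hj⟩ : ∃ j, k j ≠ 0 := by
            by_contra hcon
            push Not at hcon
            exact hk (funext hcon)
          obtain ⟨w, hw⟩ : ∃ w : Tor d, ch (-k) w = -1 := by
            refine ⟨fun i => ((Pi.single j (1 / (2 * (k j : ℝ))) : Fin d → ℝ) i : UnitAddCircle), ?_⟩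
            rw [ch_coe]
            have : ∑ i, (((-k) i : ℤ) : ℝ) * (Pi.single j (1 / (2 * (k j : ℝ))) : Fin d → ℝ) i =
                -(1 / 2) := by
              rw [Finset.sum_eq_single j]
              · rw [Pi.single_eq_same, Pi.neg_apply]
                have : (k j : ℝ) ≠ 0 := by exact_mod_cast hj
                push_cast
                field_simp
              · intro i _ hi
                rw [Pi.single_eq_of_ne hi, mul_zero]
              · intro h
                exact absurd (Finset.mem_univ j) h
            rw [this]
            have e : (((2 * π * -(1 / 2) : ℝ) : ℂ) * I) = -(π * I) := by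
              push_cast
              ring
            rw [e, exp_neg, exp_pi_mul_I]
            norm_num
          have h2 : ∫ u, ch (-k) u ∂(haar d) = ∫ u, ch (-k) (u + w) ∂(haar d) :=
            (integral_add_right_eq_self (fun u => ch (-k) u) w).symm
          simp only [ch_add, hw] at h2
          rw [integral_mul_const] at h2
          linear_combination h2 / 2
      rw [hu k]
      by_cases hk : k = 0
      · rw [if_pos hk, one_mul, hk]
        unfold fc
        rw [sub_self]
      · rw [if_neg hk, zero_mul, sub_zero]
        exact h k hk
  by_cases hc : fc B 0 = 0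
  · left
    rw [EventuallyEq, ae_iff] at h1
    refine measure_mono_null (fun u hu => ?_) h1
    intro h3
    rw [hc, indicator_of_mem hu] at h3
    simp at h3
  · right
    rw [EventuallyEq, ae_iff] at h1
    refine measure_mono_null (fun u hu => ?_) h1
    intro h3
    rw [indicator_of_notMem hu] at h3
    apply hc
    simpa using h3

end Pool.Agent.N601.TE
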