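import Mathlib
import Pool.Agent.TH578.BE.Log
import Pool.Agent.N601.TE.Tor

set_option autoImplicit false

/-!
Torus extensions of the billiard in a convex polygon.
-/

namespace Pool.Agent.N601.TE

open Complex Set MeasureTheory Filter Topology Pool.Agent.W780.PG Pool.Agent.W780.BB
open Pool.Agent.TH578.BE

open scoped Real ComplexConjugate ENNReal

variable {n d : ℕ}

/-- the point of the torus reached from `0` with the velocity `v` in the time `s` -/
noncomputable def drift (v : Fin d → ℝ) (s : ℝ) : Tor d := fun j => ((s * v j : ℝ) : UnitAddCircle)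

/-- A set of states `((z, θ), u)` of the torus extension (position `z`, direction angle `θ`, point `u`
of the torus) is invariant: it does not matter if `2 π` is added to the direction angle; during free
motion in the region of `p` the point of the torus moves with the velocity `v`; at a reflection in an
inner point of side `i` it is moved by `g i`. Nothing is required after a vertex has been hit. -/
structure IsInvariantExt (p : Fin (n + 3) → ℂ) (v : Fin d → ℝ) (g : Fin (n + 3) → Tor d)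
    (A : Set ((ℂ × ℝ) × Tor d)) : Prop where
  periodic : ∀ (z : ℂ) (θ : ℝ) (u : Tor d), ((z, θ + 2 * π), u) ∈ A ↔ ((z, θ), u) ∈ A
  free : ∀ (z : ℂ) (θ s : ℝ) (u : Tor d), z ∈ region p → z + s • dir θ ∈ region p →
    (((z, θ), u) ∈ A ↔ ((z + s • dir θ, θ), u + drift v s) ∈ A)
  reflect : ∀ i, ∀ y ∈ openSegment ℝ (p i) (p (i + 1)), ∀ (θ s r : ℝ) (u : Tor d), 0 < s → 0 < r →
    y - s • dir θ ∈ region p → y + r • dir (2 * tau p i - θ) ∈ region p →
    (((y - s • dir θ, θ), u) ∈ A ↔
      ((y + r • dir (2 * tau p i - θ), 2 * tau p i - θ), u + (drift v (s + r) + g i)) ∈ A)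

/-- Lebesgue measure on the states times the probability measure on the torus -/
noncomputable def vol (d : ℕ) : Measure ((ℂ × ℝ) × Tor d) := (volume : Measure (ℂ × ℝ)).prod (haar d)

/-- the set of the states in the phase space whose membership in `A` changes if the direction is
turned by `h` -/
def turned (p : Fin (n + 3) → ℂ) (A : Set ((ℂ × ℝ) × Tor d)) (h : ℝ) : Set ((ℂ × ℝ) × Tor d) :=
  {x | x.1 ∈ phase p ∧ ¬ (x ∈ A ↔ ((x.1.1, x.1.2 + h), x.2) ∈ A)}

/-- finite directional perimeter -/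
def FinitePer (p : Fin (n + 3) → ℂ) (A : Set ((ℂ × ℝ) × Tor d)) : Prop :=
  ∃ C : ℝ, ∀ h : ℝ, 0 < h → h < 1 → vol d (turned p A h) ≤ ENNReal.ofReal (C * h)

/-- slow directional perimeter: `o(h log (1 / h))` along a sequence of `h` tending to zero -/
def SlowPer (p : Fin (n + 3) → ℂ) (A : Set ((ℂ × ℝ) × Tor d)) : Prop :=
  ∀ ε : ℝ, 0 < ε → ∃ᶠ h : ℝ in 𝓝[>] 0,
    vol d (turned p A h) ≤ ENNReal.ofReal (ε * (h * Real.log (1 / h)))

/-- the class of sets considered -/
def InClass (p : Fin (n + 3) → ℂ) (g : Fin (n + 3) → Tor d) (A : Set ((ℂ × ℝ) × Tor d)) : Prop :=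
  FinitePer p A ∨ ((∀ i, g i + g i = 0) ∧ SlowPer p A)

/-- null or conull -/
def IsTrivialExt (p : Fin (n + 3) → ℂ) (A : Set ((ℂ × ℝ) × Tor d)) : Prop :=
  vol d {x | x.1 ∈ phase p ∧ x ∈ A} = 0 ∨ vol d {x | x.1 ∈ phase p ∧ x ∉ A} = 0

/-- The character `k` is constant along the orbits of the torus component. -/
def Kills (v : Fin d → ℝ) (g : Fin (n + 3) → Tor d) (k : Fin d → ℤ) : Prop :=
  ∑ j, (k j : ℝ) * v j = 0 ∧ ∀ i, ∑ j, k j • g i j = 0

/-! ### Fourier coefficients of the fibres -/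

/-- the fibre -/
def fib (A : Set ((ℂ × ℝ) × Tor d)) (x : ℂ × ℝ) : Set (Tor d) := {u | (x, u) ∈ A}

theorem meas_fib {A : Set ((ℂ × ℝ) × Tor d)} (hA : MeasurableSet A) (x : ℂ × ℝ) :
    MeasurableSet (fib A x) := measurable_prodMk_left hA

/-- the Fourier coefficients of the fibres -/
noncomputable def co (A : Set ((ℂ × ℝ) × Tor d)) (k : Fin d → ℤ) (x : ℂ × ℝ) : ℂ := fc (fib A x) k

theorem meas_co {A : Set ((ℂ × ℝ) × Tor d)} (hA : MeasurableSet A) (k : Fin d → ℤ) :
    Measurable (co A k) := by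
  have h : Measurable (fun x : (ℂ × ℝ) × Tor d => ch (-k) x.2 * A.indicator (fun _ => (1 : ℂ)) x) :=
    ((ch_cont (-k)).measurable.comp measurable_snd).mul (measurable_const.indicator hA)
  have h2 := (h.stronglyMeasurable.integral_prod_right' (ν := haar d)).measurable
  have e : (fun x : ℂ × ℝ => ∫ u, ch (-k) u * A.indicator (fun _ => (1 : ℂ)) (x, u) ∂(haar d)) =
      co A k := by
    funext x
    unfold co fc
    rfl
  rw [← e]
  exact h2

/-- if the fibres at `x` and `y` are translates, then the coefficients differ by a factor -/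
theorem co_shift {A : Set ((ℂ × ℝ) × Tor d)} (k : Fin d → ℤ) {x y : ℂ × ℝ} {w : Tor d}
    (h : ∀ u, (x, u) ∈ A ↔ (y, u + w) ∈ A) : co A k y = ch (-k) w * co A k x := by
  unfold co fc
  rw [← integral_add_right_eq_self (fun u => ch (-k) u * (fib A y).indicator (fun _ => (1 : ℂ)) u) w,
    ← integral_const_mul]
  apply integral_congr_ae
  refine Eventually.of_forall fun u => ?_
  simp only
  have e : (fib A y).indicator (fun _ => (1 : ℂ)) (u + w) =
      (fib A x).indicator (fun _ => (1 : ℂ)) u := by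
    by_cases hu : (x, u) ∈ A
    · rw [indicator_of_mem (show u + w ∈ fib A y from (h u).1 hu),
        indicator_of_mem (show u ∈ fib A x from hu)]
    · rw [indicator_of_notMem (show u + w ∉ fib A y from fun h1 => hu ((h u).2 h1)),
        indicator_of_notMem (show u ∉ fib A x from hu)]
  rw [e, ch_add]
  ring

/-- the frequency -/
noncomputable def freq (v : Fin d → ℝ) (k : Fin d → ℤ) : ℝ := -(2 * π * ∑ j, (k j : ℝ) * v j)

theorem ch_drift (v : Fin d → ℝ) (k : Fin d → ℤ) (s : ℝ) :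
    ch (-k) (drift v s) = exp (((freq v k * s : ℝ) : ℂ) * I) := by
  unfold drift freq
  rw [ch_coe]
  congr 3
  have : ∑ j, (((-k) j : ℤ) : ℝ) * (s * v j) = -(∑ j, (k j : ℝ) * v j) * s := by
    rw [← Finset.sum_neg_distrib, Finset.sum_mul]
    refine Finset.sum_congr rfl fun j _ => ?_
    rw [Pi.neg_apply]
    push_cast
    ring
  rw [this]
  ring

theorem co_eigen {p : Fin (n + 3) → ℂ} {v : Fin d → ℝ} {g : Fin (n + 3) → Tor d}
    {A : Set ((ℂ × ℝ) × Tor d)} (hA : IsInvariantExt p v g A) (k : Fin d → ℤ) :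
    IsEigenfunction p (freq v k) (fun i => ch (-k) (g i)) (co A k) := by
  refine ⟨?_, ?_, ?_⟩
  · intro z θ
    have h := co_shift (A := A) k (x := (z, θ)) (y := (z, θ + 2 * π)) (w := 0)
      (fun u => by rw [add_zero]; exact (hA.periodic z θ u).symm)
    rw [h]
    have : ch (-k) (0 : Tor d) = 1 := (ch_eq_one _ _).2 (by simp)
    rw [this, one_mul]
  · intro z θ s h1 h2
    rw [co_shift (A := A) k (x := (z, θ)) (fun u => hA.free z θ s u h1 h2), ch_drift]
  · intro i y hy θ s r hs hr h1 h2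
    rw [co_shift (A := A) k (x := (y - s • dir θ, θ))
      (fun u => hA.reflect i y hy θ s r u hs hr h1 h2), ch_add, ch_drift]
    ring

/-- the coefficients change less than the fibres -/
theorem co_diff {A : Set ((ℂ × ℝ) × Tor d)} (hA : MeasurableSet A) (k : Fin d → ℤ) (x y : ℂ × ℝ) :
    ENNReal.ofReal ‖co A k y - co A k x‖ ≤ haar d {u | ¬ ((x, u) ∈ A ↔ (y, u) ∈ A)} := by
  have e : co A k y - co A k x = ∫ u, (ch (-k) u * (fib A y).indicator (fun _ => (1 : ℂ)) u -
      ch (-k) u * (fib A x).indicator (fun _ => (1 : ℂ)) u) ∂(haar d) := by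
    unfold co fc
    rw [integral_sub (integrable_fc (meas_fib hA y) k) (integrable_fc (meas_fib hA x) k)]
  have hm : MeasurableSet {u : Tor d | ¬ ((x, u) ∈ A ↔ (y, u) ∈ A)} := by
    have h1 := meas_fib hA x
    have h2 := meas_fib hA y
    have : {u : Tor d | ¬ ((x, u) ∈ A ↔ (y, u) ∈ A)} =
        (fib A x \ fib A y) ∪ (fib A y \ fib A x) := by
      ext u
      simp only [mem_ofPred_eq, mem_union, Set.mem_sdiff, fib]
      tauto
    rw [this]
    exact (h1.diff h2).union (h2.diff h1)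
  rw [e, ofReal_norm]
  refine (enorm_integral_le_lintegral_enorm _).trans ?_
  rw [← lintegral_indicator_one hm]
  refine lintegral_mono fun u => ?_
  rw [← mul_sub, enorm_mul]
  have h1 : ‖ch (-k) u‖ₑ = 1 := by
    rw [← ofReal_norm, ch_norm, ENNReal.ofReal_one]
  rw [h1, one_mul]
  by_cases a : (x, u) ∈ A <;> by_cases b : (y, u) ∈ A
  · rw [indicator_of_mem (show u ∈ fib A x from a), indicator_of_mem (show u ∈ fib A y from b),
      sub_self, enorm_zero]
    exact zero_le
  · rw [indicator_of_mem (show u ∈ {u : Tor d | ¬ ((x, u) ∈ A ↔ (y, u) ∈ A)} from fun h => b (h.1 a))]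
    rw [indicator_of_mem (show u ∈ fib A x from a), indicator_of_notMem (show u ∉ fib A y from b),
      zero_sub, enorm_neg, enorm_one]
    exact le_rfl
  · rw [indicator_of_mem (show u ∈ {u : Tor d | ¬ ((x, u) ∈ A ↔ (y, u) ∈ A)} from fun h => a (h.2 b))]
    rw [indicator_of_notMem (show u ∉ fib A x from a), indicator_of_mem (show u ∈ fib A y from b),
      sub_zero, enorm_one]
    exact le_rfl
  · rw [indicator_of_notMem (show u ∉ fib A x from a), indicator_of_notMem (show u ∉ fib A y from b),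
      sub_self, enorm_zero]
    exact zero_le

theorem meas_turned {p : Fin (n + 3) → ℂ} (hph : MeasurableSet (phase p))
    {A : Set ((ℂ × ℝ) × Tor d)} (hA : MeasurableSet A) (h : ℝ) : MeasurableSet (turned p A h) := by
  have h1 : Measurable (fun x : (ℂ × ℝ) × Tor d => (((x.1.1, x.1.2 + h) : ℂ × ℝ), x.2)) := by
    fun_prop
  have h2 : MeasurableSet {x : (ℂ × ℝ) × Tor d | ((x.1.1, x.1.2 + h), x.2) ∈ A} := h1 hA
  have h3 : MeasurableSet {x : (ℂ × ℝ) × Tor d | x.1 ∈ phase p} := measurable_fst hph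
  have : turned p A h = {x : (ℂ × ℝ) × Tor d | x.1 ∈ phase p} ∩
      ((A \ {x : (ℂ × ℝ) × Tor d | ((x.1.1, x.1.2 + h), x.2) ∈ A}) ∪
      ({x : (ℂ × ℝ) × Tor d | ((x.1.1, x.1.2 + h), x.2) ∈ A} \ A)) := by
    ext x
    simp only [turned, mem_ofPred_eq, mem_inter_iff, mem_union, Set.mem_sdiff]
    tauto
  rw [this]
  exact h3.inter ((hA.diff h2).union (h2.diff hA))

theorem co_modulus {p : Fin (n + 3) → ℂ} (hph : MeasurableSet (phase p))
    {A : Set ((ℂ × ℝ) × Tor d)} (hA : MeasurableSet A) (k : Fin d → ℤ) (h : ℝ) :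
    modulus p (co A k) h ≤ vol d (turned p A h) := by
  unfold vol
  rw [Measure.prod_apply (meas_turned hph hA h)]
  unfold modulus
  rw [← lintegral_indicator hph]
  refine lintegral_mono fun x => ?_
  by_cases hx : x ∈ phase p
  · rw [indicator_of_mem hx]
    refine (co_diff hA k x (x.1, x.2 + h)).trans (measure_mono fun u hu => ?_)
    exact ⟨hx, hu⟩
  · rw [indicator_of_notMem hx]
    exact zero_le

/-- the main step: the coefficients are constant -/
theorem co_const {p : Fin (n + 3) → ℂ} (hp : IsConvexPolygon p)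
    (hirr : ∃ i, Irrational (ang p i / π)) (hph : MeasurableSet (phase p)) {v : Fin d → ℝ}
    {g : Fin (n + 3) → Tor d} {A : Set ((ℂ × ℝ) × Tor d)} (hA : MeasurableSet A)
    (hI : IsInvariantExt p v g A) (hC : InClass p g A) (k : Fin d → ℤ) :
    ∃ c : ℂ, (∀ᵐ x : ℂ × ℝ, x ∈ phase p → co A k x = c) ∧ (c ≠ 0 → Kills v g k) := by
  have hχ : ∀ i, ‖ch (-k) (g i)‖ = 1 := fun i => ch_norm _ _
  have hend : ∀ c : ℂ, (c ≠ 0 → freq v k = 0 ∧ ∀ i, ch (-k) (g i) = 1) → c ≠ 0 → Kills v g k := by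
    intro c h hc
    obtain ⟨h1, h2⟩ := h hc
    refine ⟨?_, fun i => ?_⟩
    · unfold freq at h1
      have h3 : (2 * π) ≠ 0 := by positivity
      rcases mul_eq_zero.1 (neg_eq_zero.1 h1) with h4 | h4
      · exact absurd h4 h3
      · exact h4
    · have h3 := (ch_eq_one _ _).1 (h2 i)
      have h4 : ∑ j, (-k) j • g i j = -∑ j, k j • g i j := by
        rw [← Finset.sum_neg_distrib]
        refine Finset.sum_congr rfl fun j _ => ?_
        rw [Pi.neg_apply, neg_smul]
      rw [h4, neg_eq_zero] at h3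
      exact h3
  rcases hC with ⟨C, hC⟩ | ⟨h2g, hS⟩
  · have hV : FiniteVariation p (co A k) :=
      ⟨C, fun h h1 h2 => (co_modulus hph hA k h).trans (hC h h1 h2)⟩
    obtain ⟨c, h1, h2⟩ := (final hp (freq v k) _ hχ (co A k) (meas_co hA k) (co_eigen hI k) hV).2.2
      hirr
    exact ⟨c, h1, hend c h2⟩
  · have hR : ¬ Rough p (co A k) := by
      rintro ⟨c, hc, hev⟩
      have h3 : ∀ᶠ h in 𝓝[>] (0 : ℝ), 0 < h ∧ h < 1 := by
        filter_upwards [Ioo_mem_nhdsGT (zero_lt_one : (0 : ℝ) < 1)] with h hh using hh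
      obtain ⟨h, h4, h5, h6, h7⟩ := ((hS (c / 2) (by positivity)).and_eventually (hev.and h3)).exists
      have h8 := (h5.trans (co_modulus hph hA k h)).trans h4
      have h9 : 0 < h * Real.log (1 / h) := by
        refine mul_pos h6 (Real.log_pos ?_)
        rw [one_div]
        exact (one_lt_inv₀ h6).2 h7
      rw [ENNReal.ofReal_le_ofReal_iff (by positivity)] at h8
      nlinarith
    have hpm : ∀ i, ch (-k) (g i) = 1 ∨ ch (-k) (g i) = -1 := by
      intro i
      have h1 : ch (-k) (g i) * ch (-k) (g i) = 1 := by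
        rw [← ch_add, h2g i]
        exact (ch_eq_one _ _).2 (by simp)
      exact mul_self_eq_one_iff.1 h1
    obtain ⟨c, h1, h2⟩ := (final_log hp (freq v k) _ hχ (co A k) (meas_co hA k) (co_eigen hI k)
      hR).2.2 hirr hpm
    exact ⟨c, h1, hend c h2⟩

theorem phase_facts {p : Fin (n + 3) → ℂ} (hp : IsConvexPolygon p) :
    MeasurableSet (phase p) ∧ 0 < volume (phase p) := by
  have hB : S_Basic := Pool.Agent.W174.PG.basic
  have hH : S_Hull := Pool.Agent.W975.PG.hull hB
  have hrr : region p = reg p := (hH n p hp).2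
  obtain ⟨_, hop, _, _, _, hne, _⟩ := hB n p hp
  rw [← hrr] at hop hne
  have hregm : MeasurableSet (region p) := hop.measurableSet
  refine ⟨hregm.prod measurableSet_Ico, ?_⟩
  have hpos : 0 < volume (region p) := hop.measure_pos volume hne
  unfold phase
  rw [Measure.volume_eq_prod, Measure.prod_prod]
  refine ENNReal.mul_pos hpos.ne' ?_
  rw [Real.volume_Ico, sub_zero]
  have : (0 : ℝ) < 2 * π := by positivity
  simpa using this

/-- the structure theorem -/
theorem structure_ext {p : Fin (n + 3) → ℂ} (hp : IsConvexPolygon p)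
    (hirr : ∃ i, Irrational (ang p i / π)) {v : Fin d → ℝ}
    {g : Fin (n + 3) → Tor d} {A : Set ((ℂ × ℝ) × Tor d)} (hA : MeasurableSet A)
    (hI : IsInvariantExt p v g A) (hC : InClass p g A) :
    ∃ B : Set (Tor d), MeasurableSet B ∧
      vol d {x | x.1 ∈ phase p ∧ ¬ (x ∈ A ↔ x.2 ∈ B)} = 0 ∧
      ∀ k, ¬ Kills v g k → fc B k = 0 := by
  obtain ⟨hph, hpos⟩ := phase_facts hp
  choose c hc hc0 using fun k => co_const hp hirr hph hA hI hC k
  have hall : ∀ᵐ x : ℂ × ℝ, x ∈ phase p → ∀ k, co A k x = c k := by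
    have := ae_all_iff.2 hc
    filter_upwards [this] with x hx h1 k using hx k h1
  obtain ⟨x₀, h1, h2⟩ : ∃ x₀ : ℂ × ℝ, x₀ ∈ phase p ∧ ∀ k, co A k x₀ = c k := by
    by_contra hcon
    push Not at hcon
    rw [ae_iff] at hall
    refine hpos.ne' (measure_mono_null (fun x hx => ?_) hall)
    intro h3
    obtain ⟨k, hk⟩ := hcon x hx
    exact hk (h3 hx k)
  refine ⟨fib A x₀, meas_fib hA x₀, ?_, fun k hk => ?_⟩
  · have hm : MeasurableSet {x : (ℂ × ℝ) × Tor d | x.1 ∈ phase p ∧ ¬ (x ∈ A ↔ x.2 ∈ fib A x₀)} := by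
      have a1 : MeasurableSet {x : (ℂ × ℝ) × Tor d | x.1 ∈ phase p} := measurable_fst hph
      have a2 : MeasurableSet {x : (ℂ × ℝ) × Tor d | x.2 ∈ fib A x₀} :=
        measurable_snd (meas_fib hA x₀)
      have : {x : (ℂ × ℝ) × Tor d | x.1 ∈ phase p ∧ ¬ (x ∈ A ↔ x.2 ∈ fib A x₀)} =
          {x : (ℂ × ℝ) × Tor d | x.1 ∈ phase p} ∩ ((A \ {x : (ℂ × ℝ) × Tor d | x.2 ∈ fib A x₀}) ∪
          ({x : (ℂ × ℝ) × Tor d | x.2 ∈ fib A x₀} \ A)) := by
        ext x
        simp only [mem_ofPred_eq, mem_inter_iff, mem_union, Set.mem_sdiff]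
        tauto
      rw [this]
      exact a1.inter ((hA.diff a2).union (a2.diff hA))
    unfold vol
    rw [Measure.measure_prod_null hm]
    filter_upwards [hall] with x hx
    by_cases h3 : x ∈ phase p
    · have h4 : ∀ k, fc (fib A x) k = fc (fib A x₀) k := by
        intro k
        have h5 := hx h3 k
        have h6 := h2 k
        unfold co at h5 h6
        rw [h5, h6]
      refine measure_mono_null (fun u hu => ?_) (eq_of_fc (meas_fib hA x) (meas_fib hA x₀) h4)
      exact hu.2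
    · refine measure_mono_null (t := ∅) (fun u hu => ?_) measure_empty
      exact (h3 hu.1).elim
  · by_contra h3
    have h4 := h2 k
    unfold co at h4
    rw [h4] at h3
    exact hk (hc0 k h3)

/-- the sets in the class are trivial if no character is constant along the orbits -/
theorem trivial_ext {p : Fin (n + 3) → ℂ} (hp : IsConvexPolygon p)
    (hirr : ∃ i, Irrational (ang p i / π)) {v : Fin d → ℝ}
    {g : Fin (n + 3) → Tor d} (hk : ∀ k, k ≠ 0 → ¬ Kills v g k) {A : Set ((ℂ × ℝ) × Tor d)}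
    (hA : MeasurableSet A) (hI : IsInvariantExt p v g A) (hC : InClass p g A) :
    IsTrivialExt p A := by
  obtain ⟨B, hB, h1, h2⟩ := structure_ext hp hirr hA hI hC
  rcases trivial_of_fc hB (fun k h => h2 k (hk k h)) with h3 | h3
  · left
    refine measure_mono_null (t := {x | x.1 ∈ phase p ∧ ¬ (x ∈ A ↔ x.2 ∈ B)} ∪ (univ ×ˢ B)) ?_ ?_
    · rintro x ⟨a1, a2⟩
      by_cases hx : x.2 ∈ B
      · exact Or.inr ⟨mem_univ _, hx⟩
      · exact Or.inl ⟨a1, fun h4 => hx (h4.1 a2)⟩
    · refine measure_union_null h1 ?_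
      unfold vol
      rw [Measure.prod_prod, h3, mul_zero]
  · right
    refine measure_mono_null (t := {x | x.1 ∈ phase p ∧ ¬ (x ∈ A ↔ x.2 ∈ B)} ∪ (univ ×ˢ Bᶜ)) ?_ ?_
    · rintro x ⟨a1, a2⟩
      by_cases hx : x.2 ∈ B
      · exact Or.inl ⟨a1, fun h4 => a2 (h4.2 hx)⟩
      · exact Or.inr ⟨mem_univ _, hx⟩
    · refine measure_union_null h1 ?_
      unfold vol
      rw [Measure.prod_prod, h3, mul_zero]

end Pool.Agent.N601.TE
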